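import Mathlib

/-!
# The linear programming bound for lacunary sequences
-/

open MeasureTheory Set Filter Topology Real

namespace Pool.Agent.H73.PD

theorem exists_param {m : ℝ} {c : ℝ} (c1 : 1 ≤ c) (hc : (c - 1) * m < 1) :
    ∃ s y0 Q : ℝ, s = 1 - (c - 1) * m ∧ 0 < s ∧ 0 < y0 ∧ 20 * (c - 1) * y0 ^ 2 ≤ s / 2 ∧ 2 ≤ Q ∧
      4 * c ^ 2 ≤ Q ∧ 2 * c * (c - 1) / √(Q * y0) ≤ s / 2 := by
  set s : ℝ := 1 - (c - 1) * m with hs
  have s0 : 0 < s := by linarith
  have cc : 0 ≤ c - 1 := by linarith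
  have c0 : 0 < c := by linarith
  -- the threshold
  set y0 : ℝ := √(s / (40 * c)) with hy0
  have y00 : 0 < y0 := sqrt_pos.2 (by positivity)
  have y02 : y0 ^ 2 = s / (40 * c) := sq_sqrt (by positivity)
  have hA : 20 * (c - 1) * y0 ^ 2 ≤ s / 2 := by
    rw [y02]
    have : 20 * (c - 1) * (s / (40 * c)) = (c - 1) / c * (s / 2) := by field_simp; ring
    rw [this]
    have h5 : (c - 1) / c ≤ 1 := by rw [div_le_one c0]; linarith
    exact mul_le_of_le_one_left (by positivity) h5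
  set Q : ℝ := max (max 2 (4 * c ^ 2)) ((4 * c * (c - 1) / s) ^ 2 / y0) with hQ
  have Q2 : 2 ≤ Q := (le_max_left _ _).trans (le_max_left _ _)
  have Q4 : 4 * c ^ 2 ≤ Q := (le_max_right _ _).trans (le_max_left _ _)
  have Qs : (4 * c * (c - 1) / s) ^ 2 / y0 ≤ Q := le_max_right _ _
  have Q0 : 0 < Q := by linarith
  refine ⟨s, y0, Q, rfl, s0, y00, hA, Q2, Q4, ?_⟩
  have h5 : (4 * c * (c - 1) / s) ≤ √(Q * y0) := by
    apply Real.le_sqrt_of_sq_le
    rwa [div_le_iff₀ y00] at Qs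
  have h6 : 0 < √(Q * y0) := sqrt_pos.2 (by positivity)
  rw [div_le_iff₀ s0] at h5
  rw [div_le_iff₀ h6]
  linarith

theorem lp_lac {g : ℝ → ℝ} {m : ℝ} (hm : 0 ≤ m) (h1 : ∀ a, 0 ≤ a → -m ≤ g a)
    (h2 : ∀ a, 0 ≤ a → 1 - 10 * a ^ 2 ≤ g a) (h3 : ∀ a, 0 < a → -(1 / √a) ≤ g a)
    {c : ℝ} (c1 : 1 ≤ c) {s y0 Q : ℝ} (hs : s = 1 - (c - 1) * m) (_ : 0 < s) (y00 : 0 < y0)
    (hA : 20 * (c - 1) * y0 ^ 2 ≤ s / 2) (Q2 : 2 ≤ Q) (Q4 : 4 * c ^ 2 ≤ Q)
    (hsQ2 : 2 * c * (c - 1) / √(Q * y0) ≤ s / 2) (r : ℕ) (y : ℕ → ℝ) (hy : ∀ i < r, 0 ≤ y i)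
    (hyQ : ∀ i, i + 1 < r → Q * y i ≤ y (i + 1)) :
    0 ≤ 1 + ∑ i ∈ Finset.range r, c ^ i * (c - 1) * g (y i) := by
  have cc : 0 ≤ c - 1 := by linarith
  have c0 : 0 < c := by linarith
  have Q0 : 0 < Q := by linarith
  have hsQ : 2 * c ≤ √Q := by
    apply Real.le_sqrt_of_sq_le
    nlinarith
  set W : ℕ → ℝ := fun n => 1 + ∑ i ∈ Finset.range n, c ^ i * (c - 1) * g (y i) with hW
  have hWs : ∀ n, W (n + 1) = W n + c ^ n * (c - 1) * g (y n) := fun n => by
    simp only [hW]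
    rw [Finset.sum_range_succ]
    ring
  have key : ∀ n, n ≤ r →
      (∃ Y : ℝ, 0 ≤ Y ∧ Y ≤ y0 ∧ (n < r → Q * Y ≤ y n) ∧
        c ^ n * (1 - 20 * (c - 1) * Y ^ 2) ≤ W n) ∨
      (∃ z : ℝ, y0 ≤ z ∧ (n < r → Q * z ≤ y n) ∧ 2 * c ^ n * (c - 1) / √(Q * z) ≤ W n) := by
    intro n
    induction n with
    | zero =>
      intro _
      left
      refine ⟨0, le_rfl, y00.le, fun h => ?_, ?_⟩
      · rw [mul_zero]; exact hy 0 h
      · simp [hW]
    | succ n ih =>
      intro hn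
      have hnr : n < r := by omega
      have hyn := hy n hnr
      have cn : 0 < c ^ n := by positivity
      have cn1 : 0 ≤ c ^ n * (c - 1) := mul_nonneg cn.le cc
      rw [hWs]
      rcases ih hnr.le with ⟨Y, Y0, Y1, Y2, Y3⟩ | ⟨z, z1, z2, z3⟩
      · have Y4 := Y2 hnr
        rcases le_or_gt (y n) y0 with h | h
        · left
          refine ⟨y n, hyn, h, fun h' => hyQ n h', ?_⟩
          have h5 := mul_le_mul_of_nonneg_left (h2 (y n) hyn) cn1
          have h6 : 2 * Y ^ 2 ≤ y n ^ 2 := by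
            have h7 : (Q * Y) ^ 2 ≤ y n ^ 2 := by gcongr
            nlinarith [mul_le_mul_of_nonneg_right (show (2 : ℝ) ≤ Q ^ 2 by nlinarith) (sq_nonneg Y)]
          have h8 : 20 * Y ^ 2 + 10 * y n ^ 2 ≤ 20 * c * y n ^ 2 := by
            nlinarith [mul_le_mul_of_nonneg_right c1 (sq_nonneg (y n))]
          have h9 := mul_le_mul_of_nonneg_left h8 cn1
          rw [pow_succ]
          nlinarith
        · right
          refine ⟨y n, h.le, fun h' => hyQ n h', ?_⟩
          have h5 := mul_le_mul_of_nonneg_left (h1 (y n) hyn) cn1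
          have h6 : Y ^ 2 ≤ y0 ^ 2 := by gcongr
          have h7 : s / 2 ≤ 1 - 20 * (c - 1) * Y ^ 2 - (c - 1) * m := by
            have : 20 * (c - 1) * Y ^ 2 ≤ 20 * (c - 1) * y0 ^ 2 := by gcongr
            linarith
          have h8 := mul_le_mul_of_nonneg_left h7 cn.le
          have h9 : 2 * c * (c - 1) / √(Q * y n) ≤ s / 2 := by
            refine le_trans ?_ hsQ2
            have : 0 < √(Q * y0) := sqrt_pos.2 (by positivity)
            have h10 : √(Q * y0) ≤ √(Q * y n) := sqrt_le_sqrt (by gcongr)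
            gcongr
          have h11 := mul_le_mul_of_nonneg_left h9 cn.le
          have h12 : 2 * c ^ (n + 1) * (c - 1) / √(Q * y n) =
              c ^ n * (2 * c * (c - 1) / √(Q * y n)) := by rw [pow_succ]; ring
          rw [h12]
          nlinarith
      · right
        have z4 := z2 hnr
        have z0 : 0 < z := y00.trans_le z1
        have yn0 : 0 < y n := lt_of_lt_of_le (by positivity) z4
        refine ⟨y n, ?_, fun h' => hyQ n h', ?_⟩
        · refine z1.trans (le_trans ?_ z4)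
          nlinarith
        · have h5 := mul_le_mul_of_nonneg_left (h3 (y n) yn0) cn1
          have p1 : 0 < √(Q * z) := sqrt_pos.2 (by positivity)
          have p2 : 0 < √(y n) := sqrt_pos.2 yn0
          have h6 : √(Q * z) ≤ √(y n) := sqrt_le_sqrt z4
          have h7 : 1 / √(y n) ≤ 1 / √(Q * z) := one_div_le_one_div_of_le p1 h6
          have h8 := mul_le_mul_of_nonneg_left h7 cn1
          have h9 : 2 * c ^ (n + 1) * (c - 1) / √(Q * y n) ≤ c ^ n * (c - 1) * (1 / √(y n)) := by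
            rw [sqrt_mul Q0.le, pow_succ]
            have q0 : 0 < √Q := sqrt_pos.2 Q0
            have : 2 * (c ^ n * c) * (c - 1) / (√Q * √(y n)) =
                c ^ n * (c - 1) * (1 / √(y n)) * (2 * c / √Q) := by
              field_simp
            rw [this]
            refine mul_le_of_le_one_right (by positivity) ?_
            rwa [div_le_one q0]
          have h10 : 2 * c ^ n * (c - 1) / √(Q * z) = 2 * (c ^ n * (c - 1) * (1 / √(Q * z))) := by
            ring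
          rw [h10] at z3
          linarith
  rcases key r le_rfl with ⟨Y, Y0, Y1, -, Y3⟩ | ⟨z, z1, -, z3⟩
  · refine le_trans (mul_nonneg (by positivity) ?_) Y3
    have h6 : Y ^ 2 ≤ y0 ^ 2 := by gcongr
    have h7 : 20 * (c - 1) * Y ^ 2 ≤ 20 * (c - 1) * y0 ^ 2 := by gcongr
    have : 0 ≤ (c - 1) * m := mul_nonneg cc hm
    linarith
  · exact le_trans (by positivity) z3

end Pool.Agent.H73.PD
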