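import Mathlib

/-!
# The Bessel function `J₀`: `J₀ ≥ -0.4028` and `|J₀ x| ≤ 2 / √x`
-/

open MeasureTheory Set Filter Topology Real

namespace Pool.Agent.H73.PD

/-- `2 π J₀ (x)` -/
noncomputable def bA (x : ℝ) : ℝ := ∫ θ in (-π)..π, cos (x * cos θ)

/-- `2 π J₁ (x)` -/
noncomputable def bB (x : ℝ) : ℝ := ∫ θ in (-π)..π, cos θ * sin (x * cos θ)

noncomputable def bC (x : ℝ) : ℝ := ∫ θ in (-π)..π, cos θ ^ 2 * cos (x * cos θ)

theorem bA_deriv (x : ℝ) : HasDerivAt bA (-bB x) x := by
  have h := (intervalIntegral.hasDerivAt_integral_of_dominated_loc_of_deriv_le (μ := volume)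
    (a := -π) (b := π) (F := fun x θ => cos (x * cos θ))
    (F' := fun x θ => -(cos θ * sin (x * cos θ))) (x₀ := x) (s := univ) (bound := fun _ => 1)
    univ_mem (Eventually.of_forall fun y => Continuous.aestronglyMeasurable (by fun_prop))
    (Continuous.intervalIntegrable (by fun_prop) _ _)
    (Continuous.aestronglyMeasurable (by fun_prop))
    (Eventually.of_forall fun θ _ y _ => ?_) intervalIntegrable_const
    (Eventually.of_forall fun θ _ y _ => ?_)).2
  · rw [intervalIntegral.integral_neg] at h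
    exact h
  · rw [norm_neg, norm_mul, Real.norm_eq_abs, Real.norm_eq_abs]
    exact mul_le_one₀ (abs_cos_le_one _) (abs_nonneg _) (abs_sin_le_one _)
  · have h1 : HasDerivAt (fun y : ℝ => y * cos θ) (cos θ) y := by
      simpa using (hasDerivAt_id y).mul_const (cos θ)
    exact h1.cos.congr_deriv (by ring)

theorem bB_deriv (x : ℝ) : HasDerivAt bB (bC x) x := by
  have h := (intervalIntegral.hasDerivAt_integral_of_dominated_loc_of_deriv_le (μ := volume)
    (a := -π) (b := π) (F := fun x θ => cos θ * sin (x * cos θ))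
    (F' := fun x θ => cos θ ^ 2 * cos (x * cos θ)) (x₀ := x) (s := univ) (bound := fun _ => 1)
    univ_mem (Eventually.of_forall fun y => Continuous.aestronglyMeasurable (by fun_prop))
    (Continuous.intervalIntegrable (by fun_prop) _ _)
    (Continuous.aestronglyMeasurable (by fun_prop))
    (Eventually.of_forall fun θ _ y _ => ?_) intervalIntegrable_const
    (Eventually.of_forall fun θ _ y _ => ?_)).2
  · exact h
  · rw [norm_mul, norm_pow, Real.norm_eq_abs, Real.norm_eq_abs]
    exact mul_le_one₀ (pow_le_one₀ (abs_nonneg _) (abs_cos_le_one _)) (abs_nonneg _)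
      (abs_cos_le_one _)
  · have h1 : HasDerivAt (fun y : ℝ => y * cos θ) (cos θ) y := by
      simpa using (hasDerivAt_id y).mul_const (cos θ)
    exact (h1.sin.const_mul (cos θ)).congr_deriv (by ring)

theorem bessel_eq (x : ℝ) : x * (bA x - bC x) = bB x := by
  have h1 : ∀ θ ∈ uIcc (-π) π, HasDerivAt (fun θ : ℝ => sin θ * sin (x * cos θ))
      (cos θ * sin (x * cos θ) - x * (cos (x * cos θ) - cos θ ^ 2 * cos (x * cos θ))) θ := by
    intro θ _
    have h2 : HasDerivAt (fun θ : ℝ => x * cos θ) (x * (-sin θ)) θ :=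
      (hasDerivAt_cos θ).const_mul x
    have h3 : HasDerivAt (fun θ : ℝ => sin θ * sin (x * cos θ))
        (cos θ * sin (x * cos θ) + sin θ * (cos (x * cos θ) * (x * (-sin θ)))) θ :=
      (hasDerivAt_sin θ).mul h2.sin
    refine h3.congr_deriv ?_
    have h4 := sin_sq_add_cos_sq θ
    linear_combination (-(x * cos (x * cos θ))) * h4
  have h2 := intervalIntegral.integral_eq_sub_of_hasDerivAt h1
    (Continuous.intervalIntegrable (by fun_prop) _ _)
  rw [intervalIntegral.integral_sub (Continuous.intervalIntegrable (by fun_prop) _ _)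
    (Continuous.intervalIntegrable (by fun_prop) _ _), intervalIntegral.integral_const_mul,
    intervalIntegral.integral_sub (Continuous.intervalIntegrable (by fun_prop) _ _)
    (Continuous.intervalIntegrable (by fun_prop) _ _)] at h2
  simp only [sin_pi, sin_neg, neg_zero, zero_mul, sub_zero] at h2
  unfold bA bB bC
  linarith

theorem abs_bA_le (x : ℝ) : |bA x| ≤ 2 * π := by
  have := intervalIntegral.norm_integral_le_of_norm_le_const (a := -π) (b := π) (C := 1)
    (f := fun θ => cos (x * cos θ)) fun _ _ => abs_cos_le_one _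
  rwa [one_mul, sub_neg_eq_add, ← two_mul, abs_of_pos two_pi_pos] at this

theorem abs_bB_le (x : ℝ) : |bB x| ≤ 2 * π := by
  have := intervalIntegral.norm_integral_le_of_norm_le_const (a := -π) (b := π) (C := 1)
    (f := fun θ => cos θ * sin (x * cos θ)) fun _ _ => by
      rw [norm_mul, Real.norm_eq_abs, Real.norm_eq_abs]
      exact mul_le_one₀ (abs_cos_le_one _) (abs_nonneg _) (abs_sin_le_one _)
  rwa [one_mul, sub_neg_eq_add, ← two_mul, abs_of_pos two_pi_pos] at this

/-- the energy `J₀² + J₁²` decreases -/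
theorem energy {x y : ℝ} (hx : 0 < x) (hxy : x ≤ y) :
    bA y ^ 2 + bB y ^ 2 ≤ bA x ^ 2 + bB x ^ 2 := by
  have hd : ∀ z : ℝ, HasDerivAt (fun z => bA z ^ 2 + bB z ^ 2)
      (2 * bA z * (-bB z) + 2 * bB z * bC z) z := by
    intro z
    have h1 := (bA_deriv z).pow 2
    have h2 := (bB_deriv z).pow 2
    refine (h1.add h2).congr_deriv ?_
    push_cast
    ring
  have hanti : AntitoneOn (fun z => bA z ^ 2 + bB z ^ 2) (Ici x) := by
    refine antitoneOn_of_deriv_nonpos (convex_Ici x)
      (fun z _ => (hd z).continuousAt.continuousWithinAt)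
      (fun z _ => (hd z).differentiableAt.differentiableWithinAt) fun z hz => ?_
    rw [interior_Ici] at hz
    have hz0 : 0 < z := hx.trans hz
    rw [(hd z).deriv]
    have h3 := bessel_eq z
    have h4 : 2 * bA z * (-bB z) + 2 * bB z * bC z = -(2 * z * (bA z - bC z) ^ 2) := by
      rw [← h3]; ring
    rw [h4]
    have : 0 ≤ 2 * z * (bA z - bC z) ^ 2 := by positivity
    linarith
  exact hanti self_mem_Ici hxy hxy

/-- a second decreasing energy, giving the decay of `J₀` -/
theorem energy2 {x y : ℝ} (hx : 0 < x) (hxy : x ≤ y) :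
    y * bA y ^ 2 ≤ x * bA x ^ 2 + x * bB x ^ 2 - bA x * bB x + bA x ^ 2 / (2 * x) := by
  have hd : ∀ z : ℝ, 0 < z → HasDerivAt
      (fun z => z * bA z ^ 2 + z * bB z ^ 2 - bA z * bB z + bA z ^ 2 / (2 * z))
      (-(bA z ^ 2 / (2 * z ^ 2))) z := by
    intro z hz
    have hA := bA_deriv z
    have hB := bB_deriv z
    have h1 := ((hasDerivAt_id z).mul (hA.pow 2)).add ((hasDerivAt_id z).mul (hB.pow 2))
    have h2 := h1.sub (hA.mul hB)
    have h3 := h2.add ((hA.pow 2).div ((hasDerivAt_id z).const_mul 2) (by simpa using hz.ne'))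
    have h4 := bessel_eq z
    have h5 : bC z = bA z - bB z / z := by
      field_simp
      linarith
    refine (h3.congr_deriv ?_).congr_of_eventuallyEq (Eventually.of_forall fun w => ?_)
    · simp only [id, h5, Pi.pow_apply]
      field_simp
      push_cast
      ring
    · simp
  have hanti : AntitoneOn
      (fun z => z * bA z ^ 2 + z * bB z ^ 2 - bA z * bB z + bA z ^ 2 / (2 * z)) (Ici x) := by
    refine antitoneOn_of_deriv_nonpos (convex_Ici x)
      (fun z hz => (hd z (hx.trans_le hz)).continuousAt.continuousWithinAt)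
      (fun z hz => ?_) fun z hz => ?_
    · rw [interior_Ici] at hz
      exact (hd z (hx.trans hz)).differentiableAt.differentiableWithinAt
    · rw [interior_Ici] at hz
      rw [(hd z (hx.trans hz)).deriv]
      have : 0 ≤ bA z ^ 2 / (2 * z ^ 2) := by positivity
      linarith
  have h := hanti self_mem_Ici hxy hxy
  simp only at h
  have hy : 0 < y := hx.trans_le hxy
  refine le_trans ?_ h
  have h6 : 0 ≤ (2 * y * bB y - bA y) ^ 2 / (4 * y) + bA y ^ 2 / (4 * y) := by positivity
  have h7 : (2 * y * bB y - bA y) ^ 2 / (4 * y) + bA y ^ 2 / (4 * y) =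
      y * bB y ^ 2 - bA y * bB y + bA y ^ 2 / (2 * y) := by
    field_simp
    ring
  linarith

end Pool.Agent.H73.PD
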