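import Mathlib
import Pool.Agent.H73.PD.Bessel

/-!
# The Bessel function `J₀`: lower bound `-0.40277`
-/

open MeasureTheory Set Filter Topology Real

namespace Pool.Agent.H73.PD

/-- the Taylor polynomial of `J₀ (2 √t)` of degree 9 -/
noncomputable def tp (t : ℝ) : ℝ :=
  1 - t + t ^ 2 / 4 - t ^ 3 / 36 + t ^ 4 / 576 - t ^ 5 / 14400 + t ^ 6 / 518400 - t ^ 7 / 25401600 + t ^ 8 / 1625702400 - t ^ 9 / 131681894400

theorem tp_shift (t : ℝ) : tp t =
    (-53036122761356445538878153547 / 131681894400000000000000000000 : ℝ) * (367 / 100 - t) ^ 0 +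
      (7923611976128248686241 / 146313216000000000000000000 : ℝ) * (367 / 100 - t) ^ 1 +
      (20073846969519858974477 / 365783040000000000000000 : ℝ) * (367 / 100 - t) ^ 2 +
      (15624056364214846969 / 1567641600000000000000 : ℝ) * (367 / 100 - t) ^ 3 +
      (8262472209537893 / 10450944000000000000 : ℝ) * (367 / 100 - t) ^ 4 +
      (3822270979921 / 104509440000000000 : ℝ) * (367 / 100 - t) ^ 5 +
      (250398491 / 223948800000000 : ℝ) * (367 / 100 - t) ^ 6 +
      (914089 / 36578304000000 : ℝ) * (367 / 100 - t) ^ 7 +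
      (533 / 1463132160000 : ℝ) * (367 / 100 - t) ^ 8 +
      (1 / 131681894400 : ℝ) * (367 / 100 - t) ^ 9 := by
  unfold tp
  ring

theorem tp_ge {t : ℝ} (ht : t ≤ 4) : -0.402761 ≤ tp t := by
  rw [tp_shift]
  rcases le_total t (367 / 100) with h | h
  · have hs : (0 : ℝ) ≤ 367 / 100 - t := by linarith
    generalize (367 : ℝ) / 100 - t = s at hs
    have : 0 ≤ (7923611976128248686241 / 146313216000000000000000000 : ℝ) * s ^ 1 + (20073846969519858974477 / 365783040000000000000000 : ℝ) * s ^ 2 +
      (15624056364214846969 / 1567641600000000000000 : ℝ) * s ^ 3 + (8262472209537893 / 10450944000000000000 : ℝ) * s ^ 4 +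
      (3822270979921 / 104509440000000000 : ℝ) * s ^ 5 + (250398491 / 223948800000000 : ℝ) * s ^ 6 +
      (914089 / 36578304000000 : ℝ) * s ^ 7 + (533 / 1463132160000 : ℝ) * s ^ 8 +
      (1 / 131681894400 : ℝ) * s ^ 9 := by positivity
    norm_num at this ⊢
    linarith
  · obtain ⟨u, hu⟩ : ∃ u : ℝ, 367 / 100 - t = -u := ⟨t - 367 / 100, by ring⟩
    have hu0 : 0 ≤ u := by linarith
    have hu1 : u ≤ 0.33 := by norm_num; linarith
    rw [hu]
    have e2 : 0 ≤ u ^ 2 * ((20073846969519858974477 / 365783040000000000000000 : ℝ) - (15624056364214846969 / 1567641600000000000000 : ℝ) * u - 0.05) := by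
      refine mul_nonneg (by positivity) ?_
      norm_num at hu1 ⊢
      linarith
    have e4 : 0 ≤ u ^ 4 * ((8262472209537893 / 10450944000000000000 : ℝ) - (3822270979921 / 104509440000000000 : ℝ) * u) := by
      refine mul_nonneg (by positivity) ?_
      norm_num at hu1 ⊢
      linarith
    have e6 : 0 ≤ u ^ 6 * ((250398491 / 223948800000000 : ℝ) - (914089 / 36578304000000 : ℝ) * u) := by
      refine mul_nonneg (by positivity) ?_
      norm_num at hu1 ⊢
      linarith
    have e8 : 0 ≤ u ^ 8 * ((533 / 1463132160000 : ℝ) - (1 / 131681894400 : ℝ) * u) := by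
      refine mul_nonneg (by positivity) ?_
      norm_num at hu1 ⊢
      linarith
    have e1 : 0 ≤ 0.05 * (u - 0.001) ^ 2 := by positivity
    nlinarith [e1, e2, e4, e6, e8, hu0, hu1]

end Pool.Agent.H73.PD
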