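import Mathlib
import Pool.Agent.H73.PD.Bessel
import Pool.Agent.H73.PD.Poly

/-!
# `J₀ ≥ -0.40277`
-/

open MeasureTheory Set Filter Topology Real

namespace Pool.Agent.H73.PD

theorem re_sum_exp (y : ℝ) (n : ℕ) :
    (∑ m ∈ Finset.range (2 * n), ((y : ℂ) * Complex.I) ^ m / (m.factorial : ℂ)).re =
      ∑ k ∈ Finset.range n, (-1) ^ k * y ^ (2 * k) / ((2 * k).factorial : ℝ) := by
  induction n with
  | zero => simp
  | succ n ih =>
    rw [show 2 * (n + 1) = 2 * n + 1 + 1 by ring, Finset.sum_range_succ, Finset.sum_range_succ,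
      Finset.sum_range_succ, Complex.add_re, Complex.add_re, ih, add_assoc]
    congr 1
    have h1 : ((y : ℂ) * Complex.I) ^ (2 * n) = (((-1) ^ n * y ^ (2 * n) : ℝ) : ℂ) := by
      rw [mul_pow, pow_mul Complex.I, Complex.I_sq]
      push_cast
      ring
    have h2 : ((y : ℂ) * Complex.I) ^ (2 * n + 1) =
        (((-1) ^ n * y ^ (2 * n + 1) : ℝ) : ℂ) * Complex.I := by
      rw [pow_succ, h1]
      push_cast
      ring
    rw [h1, h2]
    have h3 : (((-1) ^ n * y ^ (2 * n) : ℝ) : ℂ) / (((2 * n).factorial : ℕ) : ℂ) =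
        (((-1) ^ n * y ^ (2 * n) / ((2 * n).factorial : ℝ) : ℝ) : ℂ) := by
      push_cast
      ring
    have h4 : (((-1) ^ n * y ^ (2 * n + 1) : ℝ) : ℂ) * Complex.I / (((2 * n + 1).factorial : ℕ) : ℂ) =
        (((-1) ^ n * y ^ (2 * n + 1) / ((2 * n + 1).factorial : ℝ) : ℝ) : ℂ) * Complex.I := by
      push_cast
      ring
    rw [h3, h4, Complex.ofReal_re, Complex.re_ofReal_mul]
    simp

theorem cos_taylor {y : ℝ} (n : ℕ) (hy : |y| / ((2 * n : ℕ).succ : ℝ) ≤ 1 / 2) :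
    |cos y - ∑ k ∈ Finset.range n, (-1) ^ k * y ^ (2 * k) / ((2 * k).factorial : ℝ)| ≤
      |y| ^ (2 * n) / ((2 * n).factorial : ℝ) * 2 := by
  have hn : ‖(y : ℂ) * Complex.I‖ = |y| := by simp
  have h := Complex.exp_bound' (x := (y : ℂ) * Complex.I) (n := 2 * n) (by rw [hn]; exact hy)
  rw [hn] at h
  refine le_trans ?_ h
  have h1 := Complex.abs_re_le_norm (Complex.exp ((y : ℂ) * Complex.I) -
    ∑ m ∈ Finset.range (2 * n), ((y : ℂ) * Complex.I) ^ m / (m.factorial : ℂ))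
  rwa [Complex.sub_re, re_sum_exp, Complex.exp_ofReal_mul_I_re] at h1

theorem moment (k : ℕ) : ∫ θ in (-π)..π, cos θ ^ (2 * k) =
    2 * π * (((2 * k).factorial : ℝ) / (4 ^ k * (k.factorial : ℝ) ^ 2)) := by
  induction k with
  | zero => simp; ring
  | succ k ih =>
    rw [show 2 * (k + 1) = 2 * k + 2 by ring, integral_cos_pow, ih]
    simp only [sin_neg, sin_pi, neg_zero, mul_zero, sub_zero]
    rw [show 2 * k + 2 = (2 * k + 1) + 1 by ring, Nat.factorial_succ, Nat.factorial_succ,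
      Nat.factorial_succ k]
    push_cast
    have : (k.factorial : ℝ) ≠ 0 := by positivity
    field_simp
    ring

theorem bA_taylor {x : ℝ} (hx : 0 ≤ x) (n : ℕ) (hx2 : x / ((2 * n : ℕ).succ : ℝ) ≤ 1 / 2) :
    |bA x - 2 * π * ∑ k ∈ Finset.range n, (-1) ^ k * (x ^ 2 / 4) ^ k / (k.factorial : ℝ) ^ 2| ≤
      2 * π * (x ^ (2 * n) / ((2 * n).factorial : ℝ) * 2) := by
  have h1 : ∫ θ in (-π)..π, ∑ k ∈ Finset.range n,
      (-1) ^ k * (x * cos θ) ^ (2 * k) / ((2 * k).factorial : ℝ) =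
      2 * π * ∑ k ∈ Finset.range n, (-1) ^ k * (x ^ 2 / 4) ^ k / (k.factorial : ℝ) ^ 2 := by
    rw [intervalIntegral.integral_finsetSum fun k _ =>
      Continuous.intervalIntegrable (by fun_prop) _ _, Finset.mul_sum]
    refine Finset.sum_congr rfl fun k _ => ?_
    have h2 : ∀ θ : ℝ, (-1) ^ k * (x * cos θ) ^ (2 * k) / ((2 * k).factorial : ℝ) =
        ((-1) ^ k * x ^ (2 * k) / ((2 * k).factorial : ℝ)) * cos θ ^ (2 * k) := fun θ => by
      rw [mul_pow]; ring
    simp only [h2]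
    rw [intervalIntegral.integral_const_mul, moment, div_pow, pow_mul x]
    have h3 : (((2 * k).factorial : ℕ) : ℝ) ≠ 0 := by positivity
    have h4 : (k.factorial : ℝ) ≠ 0 := by positivity
    field_simp
  rw [← h1, bA, ← intervalIntegral.integral_sub (Continuous.intervalIntegrable (by fun_prop) _ _)
    (Continuous.intervalIntegrable (by fun_prop) _ _)]
  have h5 := intervalIntegral.norm_integral_le_of_norm_le_const (a := -π) (b := π)
    (C := x ^ (2 * n) / ((2 * n).factorial : ℝ) * 2)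
    (f := fun θ => cos (x * cos θ) - ∑ k ∈ Finset.range n,
      (-1) ^ k * (x * cos θ) ^ (2 * k) / ((2 * k).factorial : ℝ)) fun θ _ => by
      have hle : |x * cos θ| ≤ x := by
        rw [abs_mul, abs_of_nonneg hx]
        exact mul_le_of_le_one_right hx (abs_cos_le_one θ)
      refine (cos_taylor n (le_trans ?_ hx2)).trans ?_
      · gcongr
      · gcongr
  rw [sub_neg_eq_add, ← two_mul, abs_of_pos two_pi_pos] at h5
  rw [mul_comm (2 * π)]
  exact h5

theorem bA_tp {x : ℝ} (hx : 0 ≤ x) (hx4 : x ≤ 4) :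
    |bA x - 2 * π * tp (x ^ 2 / 4)| ≤ 2 * π * 0.000001 := by
  have h := bA_taylor hx 10 (by norm_num; linarith)
  have e : ∑ k ∈ Finset.range 10, (-1) ^ k * (x ^ 2 / 4) ^ k / (k.factorial : ℝ) ^ 2 =
      tp (x ^ 2 / 4) := by
    simp only [Finset.sum_range_succ, Finset.sum_range_zero, tp, Nat.factorial]
    push_cast
    ring
  rw [e] at h
  refine h.trans ?_
  have h2 : x ^ (2 * 10) / ((2 * 10).factorial : ℝ) * 2 ≤ 0.000001 := by
    have h3 : x ^ 20 ≤ 4 ^ 20 := pow_le_pow_left₀ hx hx4 20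
    norm_num [Nat.factorial] at h3 ⊢
    linarith
  exact mul_le_mul_of_nonneg_left h2 two_pi_pos.le

/-- `J₀` has a global minimum, with value between `-0.40277` and `-0.401` -/
theorem bA_min : ∃ z : ℝ, 0 < z ∧ (∀ x : ℝ, 0 ≤ x → bA z ≤ bA x) ∧
    -(2 * π * 0.40277) ≤ bA z ∧ bA z ≤ -(2 * π * 0.401) := by
  have hpi := pi_pos
  have small : ∀ y : ℝ, 0 ≤ y → y ≤ 4 → -(2 * π * 0.40277) ≤ bA y := by
    intro y hy hy4
    have h1 := (abs_le.1 (bA_tp hy hy4)).1
    have h2 := tp_ge (t := y ^ 2 / 4) (by nlinarith)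
    have h3 : 2 * π * (-0.402761) ≤ 2 * π * tp (y ^ 2 / 4) :=
      mul_le_mul_of_nonneg_left h2 two_pi_pos.le
    norm_num at h1 h3 ⊢
    linarith
  have v4 := abs_le.1 (bA_tp (x := 4) (by norm_num) le_rfl)
  have v38 := abs_le.1 (bA_tp (x := 3.8) (by norm_num) (by norm_num))
  have v0 := abs_le.1 (bA_tp (x := 0) le_rfl (by norm_num))
  have p4 : tp (4 ^ 2 / 4) ≥ -0.398 := by unfold tp; norm_num
  have p38 : tp (3.8 ^ 2 / 4) ≤ -0.402 := by unfold tp; norm_num
  have p0 : tp (0 ^ 2 / 4) = 1 := by unfold tp; norm_num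
  have hcont : Continuous bA := continuous_iff_continuousAt.2 fun y => (bA_deriv y).continuousAt
  obtain ⟨z, hz, hmin⟩ := isCompact_Icc.exists_isMinOn (s := Icc (0 : ℝ) 4)
    ⟨0, by constructor <;> norm_num⟩ hcont.continuousOn
  have hz38 : bA z ≤ bA 3.8 := hmin (by constructor <;> norm_num)
  have q38 : bA 3.8 ≤ 2 * π * (-0.401) := by
    have : 2 * π * tp (3.8 ^ 2 / 4) ≤ 2 * π * (-0.402) := mul_le_mul_of_nonneg_left p38 two_pi_pos.le
    norm_num at this v38 ⊢
    linarith [v38.2]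
  have q4 : 2 * π * (-0.399) ≤ bA 4 := by
    have : 2 * π * (-0.398) ≤ 2 * π * tp (4 ^ 2 / 4) := mul_le_mul_of_nonneg_left p4 two_pi_pos.le
    norm_num at this v4 ⊢
    linarith [v4.1]
  have q0 : 0 ≤ bA 0 := by
    rw [p0] at v0
    norm_num at v0
    linarith [v0.1]
  have z0 : z ≠ 0 := by
    rintro rfl
    norm_num at q38
    linarith
  have z4 : z ≠ 4 := by
    rintro rfl
    norm_num at q38 q4
    linarith
  have zpos : 0 < z := lt_of_le_of_ne hz.1 (Ne.symm z0)
  have zlt : z < 4 := lt_of_le_of_ne hz.2 z4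
  have hloc : IsLocalMin bA z := hmin.isLocalMin (Icc_mem_nhds zpos zlt)
  have hB : bB z = 0 := by
    have := hloc.hasDerivAt_eq_zero (bA_deriv z)
    linarith
  refine ⟨z, zpos, fun x hx => ?_, small z zpos.le zlt.le, by linarith⟩
  rcases le_total x z with h | h
  · exact hmin ⟨hx, h.trans zlt.le⟩
  · have h1 := energy zpos h
    rw [hB] at h1
    have h2 : bA x ^ 2 ≤ bA z ^ 2 := by nlinarith [sq_nonneg (bB x)]
    have h4 : bA z ≤ 0 := by
      norm_num at q38
      linarith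
    have h5 := sq_le_sq.1 h2
    rw [abs_of_nonpos h4] at h5
    have h6 := neg_abs_le (bA x)
    linarith

theorem bA_near {x : ℝ} : 2 * π * (1 - x ^ 2 / 4) ≤ bA x := by
  have h1 : ∫ θ in (-π)..π, (1 - x ^ 2 / 2 * cos θ ^ 2) ≤ bA x := by
    refine intervalIntegral.integral_mono_on (by linarith [pi_pos])
      (Continuous.intervalIntegrable (by fun_prop) _ _)
      (Continuous.intervalIntegrable (by fun_prop) _ _) fun θ _ => ?_
    have := one_sub_sq_div_two_le_cos (x := x * cos θ)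
    refine le_trans (le_of_eq ?_) this
    ring
  refine le_trans (le_of_eq ?_) h1
  have h2 := moment 1
  simp only [mul_one, Nat.factorial] at h2
  rw [intervalIntegral.integral_sub (Continuous.intervalIntegrable (by fun_prop) _ _)
    (Continuous.intervalIntegrable (by fun_prop) _ _), intervalIntegral.integral_const_mul, h2,
    intervalIntegral.integral_const, smul_eq_mul]
  push_cast
  ring

theorem bA_zero : bA 0 = 2 * π := by
  simp only [bA, zero_mul, cos_zero, intervalIntegral.integral_const, smul_eq_mul]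
  ring

theorem bA_decay {x : ℝ} (hx : 0 < x) : |bA x| ≤ 2 * π * (2 / √x) := by
  have hpi := pi_pos
  have hs : 0 < √x := sqrt_pos.2 hx
  rcases le_total x 1 with h | h
  · refine (abs_bA_le x).trans ?_
    have h1 : √x ≤ 1 := by rwa [sqrt_le_one]
    have h2 : 1 ≤ 2 / √x := by
      rw [le_div_iff₀ hs]
      linarith
    exact le_mul_of_one_le_right two_pi_pos.le h2
  · have h1 := energy2 one_pos h
    have a1 := abs_le.1 (abs_bA_le 1)
    have a2 := abs_le.1 (abs_bB_le 1)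
    have b1 : bA 1 ^ 2 ≤ (2 * π) ^ 2 := sq_le_sq' a1.1 a1.2
    have b2 : bB 1 ^ 2 ≤ (2 * π) ^ 2 := sq_le_sq' a2.1 a2.2
    have b3 : -(bA 1 * bB 1) ≤ (2 * π) ^ 2 := by nlinarith [sq_nonneg (bA 1 + bB 1)]
    have b4 : x * bA x ^ 2 ≤ 4 * (2 * π) ^ 2 := by
      norm_num at h1
      nlinarith
    have b5 : (√x * |bA x|) ^ 2 ≤ (2 * (2 * π)) ^ 2 := by
      rw [mul_pow, sq_sqrt hx.le, sq_abs]
      linarith
    have b6 := (sq_le_sq₀ (by positivity) (by positivity)).1 b5
    rw [← mul_div_assoc, le_div_iff₀ hs]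
    linarith

end Pool.Agent.H73.PD
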