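import Mathlib
import Pool.Graph.R_pool_sql_team_39128cda.H.MP_8b2bd9_co.J
import Pool.Agent.H73.PD.Taylor
import Pool.Agent.H73.PD.LP

/-!
# The atom at `0` of an invariant measure, for lacunary distances
-/

open MeasureTheory Set Filter Topology ProbabilityTheory Real
open scoped ENNReal Nat ComplexConjugate
open Pool.Agent.H.MP_fc94d9_co
open Pool.Agent.H.MP_8b2bd9_co hiding Good closed_good exists_good good_avg exists_inv main main2

namespace Pool.Agent.H73.PD

theorem er_re (r : ℝ) : (er r).re = cos (2 * π * r) := by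
  rw [er_eq, Real.fourierChar_apply]
  exact Complex.exp_ofReal_mul_I_re _

theorem Jr_re (a : ℝ) : (Jr a).re = bA (2 * π * a) := by
  have hc : Continuous fun θ => er (a * cos θ) := by fun_prop
  have h := intervalIntegral.intervalIntegral_re (hc.intervalIntegrable (μ := volume) (-π) π)
  simp only [RCLike.re_to_complex] at h
  unfold Jr bA
  rw [← h]
  refine intervalIntegral.integral_congr fun θ _ => ?_
  simp only [er_re]
  congr 1
  ring

/-- normalised: `gJ a = J₀ (2 π a)` -/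
noncomputable def gJ (a : ℝ) : ℝ := (Jr a).re / (2 * π)

theorem gJ_eq (a : ℝ) : gJ a = bA (2 * π * a) / (2 * π) := by rw [gJ, Jr_re]

theorem gJ_near {a : ℝ} : 1 - 10 * a ^ 2 ≤ gJ a := by
  rw [gJ_eq, le_div_iff₀ two_pi_pos]
  refine le_trans ?_ bA_near
  rw [mul_comm]
  refine mul_le_mul_of_nonneg_left ?_ two_pi_pos.le
  have h1 : π ^ 2 ≤ 10 := by nlinarith [pi_lt_d2, pi_pos]
  nlinarith [mul_le_mul_of_nonneg_right h1 (sq_nonneg a)]

theorem gJ_decay {a : ℝ} (ha : 0 < a) : -(1 / √a) ≤ gJ a := by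
  have h1 := bA_decay (x := 2 * π * a) (by positivity)
  rw [gJ_eq, le_div_iff₀ two_pi_pos]
  have h2 := (abs_le.1 h1).1
  refine le_trans ?_ h2
  have hs : 0 < √a := sqrt_pos.2 ha
  have h3 : 2 / √(2 * π * a) ≤ 1 / √a := by
    rw [sqrt_mul two_pi_pos.le, div_le_div_iff₀ (by positivity) hs]
    have h4 : 2 ≤ √(2 * π) := by
      apply Real.le_sqrt_of_sq_le
      nlinarith [pi_gt_three]
    nlinarith
  have h5 := mul_le_mul_of_nonneg_left h3 two_pi_pos.le
  linarith

/-- the linear programming inequality for `J₀`, with base `c`, for sequences of ratio `≥ Q` -/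
def LPI (c Q : ℝ) : Prop :=
  ∀ (r : ℕ) (y : ℕ → ℝ), (∀ i < r, 0 ≤ y i) → (∀ i, i + 1 < r → Q * y i ≤ y (i + 1)) →
    0 ≤ 1 + ∑ i ∈ Finset.range r, c ^ i * (c - 1) * gJ (y i)

theorem gJ_ge {m : ℝ} (hJ : ∀ x : ℝ, 0 ≤ x → -(2 * π * m) ≤ bA x) {a : ℝ} (ha : 0 ≤ a) :
    -m ≤ gJ a := by
  rw [gJ_eq, le_div_iff₀ two_pi_pos]
  have := hJ (2 * π * a) (by positivity)
  linarith

theorem exists_LPI {m : ℝ} (hm : 0 ≤ m) (hJ : ∀ x : ℝ, 0 ≤ x → -(2 * π * m) ≤ bA x)
    {c : ℝ} (c1 : 1 ≤ c) (hc : (c - 1) * m < 1) : ∃ Q : ℝ, 1 ≤ Q ∧ LPI c Q := by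
  obtain ⟨s, y0, Q, e1, e2, e3, e4, e5, e6, e7⟩ := exists_param c1 hc
  exact ⟨Q, by linarith, lp_lac hm (fun a ha => gJ_ge hJ ha) (fun a _ => gJ_near)
    (fun a ha => gJ_decay ha) c1 e1 e2 e3 e4 e5 e6 e7⟩

theorem LPI_three : LPI 3 (10 ^ 6) := by
  obtain ⟨z, -, z2, z3, -⟩ := bA_min
  have hJ : ∀ x : ℝ, 0 ≤ x → -(2 * π * 0.40277) ≤ bA x := fun x hx => z3.trans (z2 x hx)
  refine lp_lac (m := 0.40277) (by norm_num) (fun a ha => gJ_ge hJ ha) (fun a _ => gJ_near)
    (fun a ha => gJ_decay ha) (by norm_num) (s := 0.19446) (y0 := 0.049) (by norm_num)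
    (by norm_num) (by norm_num) (by norm_num) (by norm_num) (by norm_num) ?_
  have h6 : (200 : ℝ) ≤ √(10 ^ 6 * 0.049) := by
    apply Real.le_sqrt_of_sq_le
    norm_num
  have h7 : (0 : ℝ) < √(10 ^ 6 * 0.049) := by linarith
  rw [div_le_iff₀ h7]
  norm_num at h6 ⊢
  linarith

theorem atom_lac {c Q : ℝ} (c0 : 1 ≤ c) (hQ : LPI c Q)
    (r : ℕ) (d : ℕ → ℕ) (hd : ∀ i < r, 0 < d i) (hdQ : ∀ i, i + 1 < r → Q * d i ≤ d (i + 1))
    {Γ : Type} [Field Γ] [CharZero Γ] [Countable Γ]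
    {ι : Γ →+* ℂ} {θ : ℕ → Γ} (h1 : ∀ N, 1 ≤ N → θ N * (1 - θ N) = (N ^ 2 : ℕ))
    (h2 : ∀ N, ι (1 - θ N) = conj (ι (θ N))) (μ : Measure (Γ → T)) [IsProbabilityMeasure μ]
    (had : ∀ᵐ x ∂μ, Ad x) (hU : UI ι μ) (h : ∀ i < r, ∫ x, (ec (x (d i))).re ∂μ ≤ 0) :
    μ.real {0} * c ^ r ≤ 1 := by
  have cg : Continuous gJ := (Complex.continuous_re.comp Jr_cont).div_const _
  have g0 : gJ 0 = 1 := by simp [gJ, Jr_zero]
  have g1 : ∀ a, |gJ a| ≤ 1 := fun a => by
    rw [gJ, abs_div, abs_of_pos two_pi_pos, div_le_one two_pi_pos]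
    exact (Complex.abs_re_le_norm _).trans (Jr_le a)
  obtain ⟨C, c1, c2, ρ, c3, c4, c5, c6⟩ := circ h1 h2 μ had hU
  have i1 : ∀ j : ℝ, Integrable (fun x => gJ (j * ρ x)) (μ.restrict C) := fun j =>
    Integrable.of_bound (cg.measurable.comp (c3.const_mul _)).aestronglyMeasurable 1
      (Eventually.of_forall fun x => g1 _)
  have d1 : ∀ i < r, ∫ x in C, gJ (d i * ρ x) ∂μ ≤ 0 := by
    intro i hi
    have e1 := congrArg Complex.re (c6 (d i) (hd i hi).ne')
    have e2 := integral_re (μ := μ) (Integrable.of_bound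
      (meas_ec (((d i : ℕ) : Γ))).aestronglyMeasurable 1
      (Eventually.of_forall fun x => (norm_ec _).le))
    have e3 := integral_re (μ := μ.restrict C) (f := fun x => Jr ((d i : ℕ) * ρ x))
      (Integrable.of_bound (Jr_cont.measurable.comp (c3.const_mul _)).aestronglyMeasurable _
      (Eventually.of_forall fun x => Jr_le _))
    simp only [RCLike.re_to_complex] at e2 e3
    rw [← e3, show (2 * π : ℂ) = ((2 * π : ℝ) : ℂ) by push_cast; rfl, Complex.re_ofReal_mul,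
      ← e2] at e1
    simp only [gJ]
    rw [integral_div]
    rw [← e1]
    exact div_nonpos_of_nonpos_of_nonneg (mul_nonpos_of_nonneg_of_nonpos two_pi_pos.le (h i hi))
      two_pi_pos.le
  have i2 : Integrable (fun x => ∑ i ∈ Finset.range r, c ^ i * (c - 1) * gJ (d i * ρ x))
      (μ.restrict C) := integrable_finsetSum _ fun i _ => (i1 _).const_mul _
  have d2 : ∫ x in C, (1 + ∑ i ∈ Finset.range r, c ^ i * (c - 1) * gJ (d i * ρ x)) ∂μ ≤ 1 := by
    rw [integral_add (integrable_const _) i2, integral_finsetSum _ fun i _ => (i1 _).const_mul _]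
    have e1 : ∑ i ∈ Finset.range r, ∫ x in C, c ^ i * (c - 1) * gJ (d i * ρ x) ∂μ ≤ 0 :=
      Finset.sum_nonpos fun i hi => by
        rw [integral_const_mul]
        exact mul_nonpos_of_nonneg_of_nonpos (mul_nonneg (by positivity) (by linarith))
          (d1 i (Finset.mem_range.1 hi))
    have e2 : μ.real C ≤ 1 := measureReal_le_one
    simp only [integral_const, measureReal_restrict_apply_univ, smul_eq_mul, mul_one]
    linarith
  refine le_trans ?_ ((setIntegral_mono_set ((integrable_const _).add i2)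
    (Eventually.of_forall fun x => hQ r (fun i => d i * ρ x)
      (fun i _ => mul_nonneg (Nat.cast_nonneg _) (c4 x)) (fun i hi => by
        have := mul_le_mul_of_nonneg_right (hdQ i hi) (c4 x)
        linarith))
    (singleton_subset_iff.2 c2).eventuallyLE).trans d2)
  rw [integral_singleton]
  simp only [Pi.add_apply, c5, mul_zero, g0, mul_one, smul_eq_mul]
  refine le_of_eq ?_
  congr 1
  rw [← Finset.sum_mul, geom_sum_mul]
  ring

end Pool.Agent.H73.PD
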