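import Mathlib
import Pool.Graph.R_pool_sql_team_39128cda.H.MP_8b2bd9_co.J
import Pool.Agent.H73.PD.Atom

/-!
# From sets without given distances to invariant measures, density version
-/

open MeasureTheory Set Filter Topology ProbabilityTheory
open scoped ENNReal Nat ComplexConjugate
open Pool.Agent.H.MP_fc94d9_co hiding Good closed_good exists_good good_avg exists_inv main
open Pool.Agent.H.MP_8b2bd9_co hiding Good closed_good exists_good good_avg exists_inv good_ad
  main main2 main3 main4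

namespace Pool.Agent.H73.PD

/-- the point of the box with coordinates `g` -/
def bx {Γ : Type} [AddCommGroup Γ] (Φ : Finset Γ) (M : ℕ) (g : Φ → ZMod M) : Γ :=
  ∑ s, ((g s).val : ℤ) • (s : Γ)

open Classical in
theorem fin_dens {Γ : Type} [AddCommGroup Γ] (Φ : Finset Γ) {ε δ : ℝ} (hε : 0 < ε) (hδ : 0 < δ)
    (M : ℕ) [NeZero M] (hM : 4 * Fintype.card Φ / (δ * ε) < M) (S : Set Γ)
    (hS : δ * (M : ℝ) ^ Fintype.card Φ ≤
      ((Finset.univ.filter fun g : Φ → ZMod M => bx Φ M g ∈ S).card : ℝ)) :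
    ∃ μ : ProbabilityMeasure (Γ → T), ENNReal.ofReal δ ≤ (μ : Measure (Γ → T)) {0} ∧
      ∀ v : Φ → ℤ, (∀ s, |v s| ≤ 2) →
        ((∀ a ∈ S, a + ∑ s, v s • (s : Γ) ∉ S) →
          ∫ x : Γ → T, (ec (∑ s : Φ, v s • x s)).re ∂μ ≤ ε) ∧
        (∑ s, v s • (s : Γ) = 0 → 1 - ε ≤ ∫ x : Γ → T, (ec (∑ s : Φ, v s • x s)).re ∂μ) := by
  have hM0 : (0 : ℝ) < M := lt_of_le_of_lt (by positivity) hM
  have hβ1 : ∀ g ∉ bd Φ M, ∀ v : Φ → ℤ, (∀ s, |v s| ≤ 2) →
      bx Φ M (g + fun s => (v s : ZMod M)) = bx Φ M g + ∑ s, v s • (s : Γ) := by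
    intro g hg v hv
    simp only [bx, val_shift hg v hv, add_smul, Finset.sum_add_distrib]
  set A := Finset.univ.filter fun g : Φ → ZMod M => bx Φ M g ∈ S with hA
  set n := M ^ Fintype.card Φ with hn
  have n0 : 0 < n := Nat.pos_of_ne_zero (pow_ne_zero _ (NeZero.ne M))
  have n0' : (0 : ℝ) < n := by exact_mod_cast n0
  have hnr : (M : ℝ) ^ Fintype.card Φ = n := by rw [hn]; push_cast; rfl
  rw [hnr] at hS
  have A0' : (0 : ℝ) < A.card := lt_of_lt_of_le (by positivity) hS
  have hbd : ((bd Φ M).card : ℝ) ≤ ε * A.card := by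
    have b1 : ((bd Φ M).card : ℝ) * M ≤ 4 * Fintype.card Φ * n := by
      exact_mod_cast card_bd (I := Φ) (M := M)
    rw [div_lt_iff₀ (by positivity)] at hM
    apply le_of_mul_le_mul_right _ hM0
    calc _ ≤ _ := b1
      _ ≤ (M * (δ * ε)) * n := by gcongr
      _ = M * ε * (δ * n) := by ring
      _ ≤ M * ε * A.card := by gcongr
      _ = _ := by ring
  set p : (Φ → ZMod M) → ℝ := fun a => ‖∑ g ∈ A, chi a g‖ ^ 2 / (n * A.card) with hp
  have hpar : ∀ v : Φ → ZMod M, ∑ a, p a * (chi a v).re =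
      (A.filter fun g => g + v ∈ A).card / A.card := by
    intro v
    have b1 := congrArg Complex.re (parseval A v)
    rw [Complex.re_sum, ← Nat.cast_pow, ← hn, ← Nat.cast_mul, Complex.natCast_re] at b1
    simp only [Complex.re_ofReal_mul] at b1
    simp only [hp, div_mul_eq_mul_div]
    rw [← Finset.sum_div, b1]
    push_cast; field_simp
  obtain ⟨μ, h1, h2⟩ := disc_meas p (fun a => by positivity) (by
    have := hpar 0
    simp only [chi_zero', Complex.one_re, mul_one, add_zero] at this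
    rw [this, Finset.filter_true_of_mem fun _ h => h, div_self A0'.ne'])
    (fun a (z : Γ) => if h : z ∈ Φ then ZMod.toAddCircle (a ⟨z, h⟩) else (0 : T))
  refine ⟨μ, ?_, fun v hv => ?_⟩
  · have b1 := h2 0
    have b2 : (fun z : Γ => if h : z ∈ Φ then ZMod.toAddCircle ((0 : Φ → ZMod M) ⟨z, h⟩)
        else (0 : T)) = 0 := by
      funext z; simp
    rw [b2] at b1
    refine le_trans ?_ b1
    apply ENNReal.ofReal_le_ofReal
    simp only [hp, chi_zero, Finset.sum_const, nsmul_eq_mul, mul_one, Complex.norm_natCast]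
    rw [le_div_iff₀ (by positivity)]
    nlinarith
  · have b0 : Measurable fun x : Γ → T => ∑ s : Φ, v s • x s :=
      Finset.measurable_sum _ fun s _ =>
        (continuous_zsmul (v s)).measurable.comp (measurable_pi_apply (s : Γ))
    have b0' : Measurable fun x : Γ → T => (ec (∑ s : Φ, v s • x s)).re :=
      Complex.measurable_re.comp (cont_ec.measurable.comp b0)
    rw [h1 _ b0']
    have b1 : ∀ a : Φ → ZMod M, ec (∑ s : Φ, v s • (if h : (s : Γ) ∈ Φ then
        ZMod.toAddCircle (a ⟨s, h⟩) else (0 : T))) = chi a fun s => (v s : ZMod M) := by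
      intro a
      rw [chi]
      congr 1
      refine Finset.sum_congr rfl fun s _ => ?_
      rw [dif_pos s.2, ← map_zsmul, zsmul_eq_mul, mul_comm]
    simp only [b1]
    rw [hpar]
    constructor
    · intro h
      rw [div_le_iff₀ A0']
      refine le_trans ?_ hbd
      refine Nat.cast_le.2 (Finset.card_le_card fun g hg => ?_)
      by_contra hb
      obtain ⟨c1, c2⟩ := Finset.mem_filter.1 hg
      have c3 := (Finset.mem_filter.1 c2).2
      rw [hβ1 g hb v hv] at c3
      exact h _ (Finset.mem_filter.1 c1).2 c3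
    · intro h
      rw [le_div_iff₀ A0']
      have c0 : A ⊆ (A.filter fun g => (g + fun s => (v s : ZMod M)) ∈ A) ∪ bd Φ M := by
        intro g hg
        by_cases hb : g ∈ bd Φ M
        · exact Finset.mem_union_right _ hb
        · refine Finset.mem_union_left _ (Finset.mem_filter.2 ⟨hg, Finset.mem_filter.2
            ⟨Finset.mem_univ _, ?_⟩⟩)
          rw [hβ1 g hb v hv, h, add_zero]
          exact (Finset.mem_filter.1 hg).2
      have c1 := (Finset.card_le_card c0).trans (Finset.card_union_le _ _)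
      have c2 : (A.card : ℝ) ≤ (A.filter fun g => (g + fun s => (v s : ZMod M)) ∈ A).card +
          (bd Φ M).card := by exact_mod_cast c1
      linarith

variable {Γ : Type} [Field Γ] [CharZero Γ] [Countable Γ]

/-- the measures sought -/
def Gd (D : Set ℝ) (ι : Γ →+* ℂ) (δ : ℝ≥0∞) (μ : ProbabilityMeasure (Γ → T)) : Prop :=
  δ ≤ (μ : Measure (Γ → T)) {0} ∧
    (∀ s, ‖ι s‖ ∈ D → ∫ x, (ec (x s)).re ∂(μ : Measure (Γ → T)) ≤ 0) ∧
    ∀ a b, 1 ≤ ∫ x, (ec (x a + x b - x (a + b))).re ∂(μ : Measure (Γ → T))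

omit [CharZero Γ] in
theorem closed_gd (D : Set ℝ) (ι : Γ →+* ℂ) (δ : ℝ≥0∞) : IsClosed {μ | Gd D ι δ μ} := by
  refine (closed_atom _).inter (IsClosed.inter ?_ ?_)
  · change IsClosed {μ : ProbabilityMeasure (Γ → T) | ∀ s, ‖ι s‖ ∈ D →
      ∫ x, (ec (x s)).re ∂(μ : Measure (Γ → T)) ≤ 0}
    simp only [ofPred_forall]
    exact isClosed_iInter fun s => isClosed_iInter fun _ =>
      isClosed_le (cint (cont1 s)) continuous_const
  · change IsClosed {μ : ProbabilityMeasure (Γ → T) | ∀ a b,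
      1 ≤ ∫ x, (ec (x a + x b - x (a + b))).re ∂(μ : Measure (Γ → T))}
    simp only [ofPred_forall]
    exact isClosed_iInter fun a => isClosed_iInter fun b =>
      isClosed_le continuous_const (cint (cont2 a b))

omit [CharZero Γ] in
theorem exists_gd (D : Set ℝ) (ι : Γ →+* ℂ) {δ : ℝ} (hδ : 0 < δ)
    (hden : ∀ (Φ : Finset Γ) (M : ℕ) [NeZero M], ∃ S : Set Γ,
      (∀ a ∈ S, ∀ s, ‖ι s‖ ∈ D → a + s ∉ S) ∧ δ * (M : ℝ) ^ Fintype.card Φ ≤
        ({g : Φ → ZMod M | bx Φ M g ∈ S}.ncard : ℝ)) :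
    ∃ μ, Gd D ι (ENNReal.ofReal δ) μ := by
  classical
  obtain ⟨μ, h1, h2⟩ := (closed_atom (Γ := Γ) (ENNReal.ofReal δ)).isCompact.inter_iInter_nonempty
    (fun i : (Γ × Γ) × ℕ => {μ : ProbabilityMeasure (Γ → T) | (‖ι i.1.1‖ ∈ D →
      ∫ x, (ec (x i.1.1)).re ∂(μ : Measure (Γ → T)) ≤ 1 / ((i.2 : ℝ) + 1))} ∩
      {μ | 1 - 1 / ((i.2 : ℝ) + 1) ≤
        ∫ x, (ec (x i.1.1 + x i.1.2 - x (i.1.1 + i.1.2))).re ∂(μ : Measure (Γ → T))})
    (fun i => by
      refine IsClosed.inter ?_ (isClosed_le continuous_const (cint (cont2 _ _)))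
      rw [ofPred_forall]
      exact isClosed_iInter fun _ => isClosed_le (cint (cont1 _)) continuous_const)
    (fun u => by
      set Φ : Finset Γ := u.biUnion fun i => {i.1.1, i.1.2, i.1.1 + i.1.2} with hΦ
      set ε : ℝ := 1 / (((u.sup Prod.snd : ℕ) : ℝ) + 1) with hε
      have ε0 : 0 < ε := by positivity
      obtain ⟨M, hM⟩ := exists_nat_gt (4 * Fintype.card Φ / (δ * ε))
      have hM0 : (0 : ℝ) < M := lt_of_le_of_lt (by positivity) hM
      have : NeZero M := ⟨by rintro rfl; simp at hM0⟩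
      obtain ⟨S, hS1, hS2⟩ := hden Φ M
      have hnc : {g : Φ → ZMod M | bx Φ M g ∈ S}.ncard =
          (Finset.univ.filter fun g : Φ → ZMod M => bx Φ M g ∈ S).card := by
        rw [← Set.ncard_coe_finset]
        congr 1
        ext g
        simp
      rw [hnc] at hS2
      obtain ⟨μ, h1, h2⟩ := fin_dens Φ ε0 hδ M hM S hS2
      refine ⟨μ, h1, mem_iInter₂.2 fun i hi => ?_⟩
      have a1 : i.1.1 ∈ Φ := Finset.mem_biUnion.2 ⟨i, hi, by simp⟩
      have a2 : i.1.2 ∈ Φ := Finset.mem_biUnion.2 ⟨i, hi, by simp⟩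
      have a3 : i.1.1 + i.1.2 ∈ Φ := Finset.mem_biUnion.2 ⟨i, hi, by simp⟩
      have a4 : 1 / (((u.sup Prod.snd : ℕ) : ℝ) + 1) ≤ 1 / ((i.2 : ℝ) + 1) := by
        have : i.2 ≤ u.sup Prod.snd := Finset.le_sup (f := Prod.snd) hi
        gcongr
      constructor
      · intro hs
        have b1 := (h2 (Pi.single ⟨_, a1⟩ 1) fun s => by
          rw [Pi.single_apply]; split_ifs <;> norm_num).1
        simp only [sum_sing] at b1
        exact (b1 fun a ha => hS1 a ha _ hs).trans a4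
      · have b1 := (h2 (Pi.single ⟨_, a1⟩ 1 + Pi.single ⟨_, a2⟩ 1 - Pi.single ⟨_, a3⟩ 1)
          fun s => by
            simp only [Pi.sub_apply, Pi.add_apply, Pi.single_apply]; split_ifs <;> norm_num).2
        simp only [Pi.sub_apply, Pi.add_apply, sub_smul, add_smul, Finset.sum_sub_distrib,
          Finset.sum_add_distrib, sum_sing] at b1
        exact le_trans (by linarith) (b1 (sub_self _)))
  have h3 := mem_iInter.1 h2
  refine ⟨μ, h1, fun s hs => ?_, fun a b => ?_⟩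
  · exact ge_of_tendsto' tendsto_one_div_add_atTop_nhds_zero_nat fun n => (h3 ((s, s), n)).1 hs
  · have := (tendsto_one_div_add_atTop_nhds_zero_nat (𝕜 := ℝ)).const_sub 1
    rw [sub_zero] at this
    exact le_of_tendsto' this fun n => (h3 ((a, b), n)).2

omit [CharZero Γ] in
theorem gd_avg {D : Set ℝ} {ι : Γ →+* ℂ} {δ : ℝ≥0∞} {μ : ProbabilityMeasure (Γ → T)}
    (hμ : Gd D ι δ μ) {h : Γ} (hh : ‖ι h‖ = 1) (N : ℕ) : Gd D ι δ (avg h N μ) := by
  have N0 : (0 : ℝ) < (N : ℝ) + 1 := by positivity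
  refine ⟨?_, fun s hs => ?_, fun a b => ?_⟩
  · simp only [avg, ProbabilityMeasure.coe_mk, Measure.smul_apply, Measure.coe_finsetSum,
      Finset.sum_apply, smul_eq_mul]
    have : ∀ i ∈ Finset.range (N + 1),
        δ ≤ ((μ : Measure (Γ → T)).map (mu (h ^ i))) {0} := by
      intro i _
      rw [Measure.map_apply (meas_mu _) (measurableSet_singleton _)]
      refine hμ.1.trans (measure_mono ?_)
      rintro _ rfl; rfl
    calc δ = ((N + 1 : ℕ) : ℝ≥0∞)⁻¹ * ∑ _i ∈ Finset.range (N + 1), δ := by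
          rw [Finset.sum_const, Finset.card_range, nsmul_eq_mul, ← mul_assoc,
            ENNReal.inv_mul_cancel (by simp) (by simp), one_mul]
      _ ≤ _ := mul_le_mul_right (Finset.sum_le_sum this) _
  · rw [int_avg h N μ (cont1 s)]
    refine mul_nonpos_of_nonneg_of_nonpos (by positivity) (Finset.sum_nonpos fun i _ => ?_)
    exact hμ.2.1 (h ^ i * s) (by
      rwa [map_mul, map_pow, norm_mul, norm_pow, hh, one_pow, one_mul])
  · rw [int_avg h N μ (cont2 a b), le_inv_mul_iff₀ N0]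
    have := Finset.card_nsmul_le_sum (Finset.range (N + 1)) (fun i => ∫ x,
      (ec (mu (h ^ i) x a + mu (h ^ i) x b - mu (h ^ i) x (a + b))).re ∂(μ : Measure (Γ → T))) 1
      fun i _ => by simpa only [mu, mul_add] using hμ.2.2 (h ^ i * a) (h ^ i * b)
    simpa using this

omit [CharZero Γ] in
theorem exists_inv' {D : Set ℝ} {ι : Γ →+* ℂ} {δ : ℝ≥0∞} (h0 : ∃ μ, Gd D ι δ μ) :
    ∃ μ, Gd D ι δ μ ∧ UI ι (μ : Measure (Γ → T)) := by
  classical
  obtain ⟨μ, h1, h2⟩ := (closed_gd D ι δ).isCompact.inter_iInter_nonempty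
    (fun i : Γ × ℕ => {μ : ProbabilityMeasure (Γ → T) | ‖ι i.1‖ = 1 →
      Inv i.1 (2 / ((i.2 : ℝ) + 1)) μ})
    (fun i => by
      rw [ofPred_forall]
      exact isClosed_iInter fun _ => closed_inv _ _)
    (fun u => by
      induction u using Finset.induction_on with
      | empty => obtain ⟨μ, hμ⟩ := h0; exact ⟨μ, hμ, by simp⟩
      | insert i u hi ih =>
        obtain ⟨μ, a1, a2⟩ := ih
        rw [Finset.set_biInter_insert]
        by_cases hs : ‖ι i.1‖ = 1
        · exact ⟨avg i.1 i.2 μ, gd_avg a1 hs _, fun _ => inv_self _ _ _,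
            mem_iInter₂.2 fun j hj hj' => inv_avg (mem_iInter₂.1 a2 j hj hj') _ _⟩
        · exact ⟨μ, a1, fun h => (hs h).elim, a2⟩)
  refine ⟨μ, h1, fun h hh => ⟨meas_mu h, ?_⟩⟩
  refine ext_of_forall_integral_eq_of_IsFiniteMeasure fun f => ?_
  rw [integral_map (meas_mu h).aemeasurable f.continuous.measurable.aestronglyMeasurable,
    ← sub_eq_zero, ← abs_nonpos_iff]
  have := ((tendsto_one_div_add_atTop_nhds_zero_nat (𝕜 := ℝ)).const_mul 2).mul_const ‖f‖
  rw [mul_zero, zero_mul] at this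
  refine ge_of_tendsto' this fun n => ?_
  rw [mul_one_div]
  exact mem_iInter.1 h2 (h, n) hh f f.continuous ‖f‖ fun x => f.norm_coe_le_norm x

omit [CharZero Γ] in
theorem gd_ad {D : Set ℝ} {ι : Γ →+* ℂ} {δ : ℝ≥0∞} {μ : ProbabilityMeasure (Γ → T)}
    (h1 : Gd D ι δ μ) : ∀ᵐ x ∂(μ : Measure (Γ → T)), Ad x := by
  simp only [Ad, ae_all_iff]
  intro a b
  have hb : ∀ u, (ec u).re ≤ 1 := fun u => (Complex.re_le_norm _).trans (norm_ec u).le
  have i1 := integ (cont2 a b) (μ : Measure (Γ → T))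
  have b1 := (integral_eq_zero_iff_of_nonneg (μ := (μ : Measure (Γ → T)))
    (f := fun x : Γ → T => 1 - (ec (x a + x b - x (a + b))).re)
    (fun x => sub_nonneg.2 (hb _)) ((integrable_const _).sub i1)).1 (by
      apply le_antisymm _ (integral_nonneg fun x => sub_nonneg.2 (hb _))
      rw [integral_sub (integrable_const _) i1]
      simpa using h1.2.2 a b)
  filter_upwards [b1] with x hx
  have c1 : (ec (x a + x b - x (a + b))).re = 1 := by
    have : 1 - (ec (x a + x b - x (a + b))).re = 0 := hx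
    linarith
  have c2 := Complex.sq_norm (ec (x a + x b - x (a + b)))
  rw [norm_ec, Complex.normSq_apply, c1] at c2
  have c3 : ec (x a + x b - x (a + b)) = 1 :=
    Complex.ext c1 (mul_self_eq_zero.1 (by linarith))
  exact (sub_eq_zero.1 (ec_eq_one c3)).symm

end Pool.Agent.H73.PD
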