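import Mathlib
import Pool.Agent.H73.PD.Dens

/-!
# The density theorem in the plane, for lacunary commensurable distances
-/

open MeasureTheory Set Filter Topology ProbabilityTheory
open scoped ENNReal Nat ComplexConjugate
open Pool.Agent.H.MP_fc94d9_co hiding Good closed_good exists_good good_avg exists_inv main
open Pool.Agent.H.MP_8b2bd9_co hiding Good closed_good exists_good good_avg exists_inv good_ad
  main main2 main3 main4

namespace Pool.Agent.H73.PD

/-- the theorem for positive integer multiples of one distance -/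
theorem plane_nat {c Q : ℝ} (c0 : 1 ≤ c) (hLP : LPI c Q)
    (r : ℕ) (d : ℕ → ℕ) (hd : ∀ i < r, 0 < d i) (hdQ : ∀ i, i + 1 < r → Q * d i ≤ d (i + 1))
      (t : ℝ) (ht : 0 < t) (ε : ℝ) (hε : 0 < ε) :
      ∃ (n : ℕ) (p : Fin n → EuclideanSpace ℝ (Fin 2)), 0 < n ∧
        ∀ A : Set (EuclideanSpace ℝ (Fin 2)),
          (∀ x ∈ A, ∀ y ∈ A, ∀ i < r, dist x y ≠ t * d i) →
          ({i | p i ∈ A}.ncard : ℝ) ≤ ((1 / c) ^ r + ε) * n := by
  by_contra hcon
  push Not at hcon
  have hcpos : 0 < c := by linarith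
  have hc1 : 0 < (1 / c) ^ r := by positivity
  set δ : ℝ := (1 / c) ^ r + ε with hδ
  have δ0 : 0 < δ := by positivity
  have : Countable (algebraicClosure ℚ ℂ) :=
    ((Algebraic.countable ℚ ℂ).mono fun x hx => mem_algebraicClosure_iff.1 hx).to_subtype
  have hs : ∀ N : ℕ, 1 ≤ N →
      (Complex.I * (√(4 * (N : ℝ) ^ 2 - 1) : ℝ)) ^ 2 = ((1 - 4 * N ^ 2 : ℤ) : ℂ) := by
    intro N hN
    have : (1 : ℝ) ≤ N := by exact_mod_cast hN
    rw [mul_pow, ← Complex.ofReal_pow, Real.sq_sqrt (by nlinarith)]; simp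
  have hw : ∀ N : ℕ, Complex.I * (√(4 * (N : ℝ) ^ 2 - 1) : ℝ) ∈ algebraicClosure ℚ ℂ := by
    intro N
    rcases Nat.eq_zero_or_pos N with rfl | hN
    · rw [Real.sqrt_eq_zero_of_nonpos (by norm_num)]; simp
    refine mem_algebraicClosure_iff.2 (IsAlgebraic.of_pow two_pos ?_)
    rw [hs N hN]
    exact isAlgebraic_intCast _
  set ι := (algebraicClosure ℚ ℂ).val.toRingHom with hι
  set θ : ℕ → algebraicClosure ℚ ℂ := fun N => (1 + ⟨_, hw N⟩) / 2 with hθ
  have t1 : ∀ N, ι (θ N) = (1 + Complex.I * (√(4 * (N : ℝ) ^ 2 - 1) : ℝ)) / 2 := fun N => by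
    simp only [hθ, map_div₀, map_add, map_one, map_ofNat]; rfl
  -- the embedding of the algebraic numbers in the plane
  set P : algebraicClosure ℚ ℂ → EuclideanSpace ℝ (Fin 2) := fun z =>
    Complex.orthonormalBasisOneI.repr ((t : ℂ) * ι z) with hP
  have hPd : ∀ a s, dist (P (a + s)) (P a) = t * ‖ι s‖ := fun a s => by
    rw [hP]
    simp only
    rw [LinearIsometryEquiv.dist_map, dist_eq_norm, map_add, mul_add, add_sub_cancel_left,
      norm_mul, Complex.norm_real, Real.norm_of_nonneg ht.le]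
  obtain ⟨μ, h1, h2⟩ := exists_inv' (exists_gd {e | ∃ i < r, e = (d i : ℝ)} ι δ0 (by
    intro Φ M hM
    set e := Fintype.equivFin (Φ → ZMod M) with he
    obtain ⟨A, hA1, hA2⟩ := hcon (Fintype.card (Φ → ZMod M)) (fun i => P (bx Φ M (e.symm i)))
      Fintype.card_pos
    refine ⟨{z | P z ∈ A}, ?_, ?_⟩
    · rintro a ha s ⟨i, hi, hn⟩ has
      exact hA1 _ has _ ha i hi (by rw [hPd, hn])
    · have h3 : {g : Φ → ZMod M | bx Φ M g ∈ {z | P z ∈ A}}.ncard =
          {i | P (bx Φ M (e.symm i)) ∈ A}.ncard := by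
        refine Set.ncard_congr (fun g _ => e g) ?_ ?_ ?_
        · intro g hg
          rw [Set.mem_ofPred_eq, e.symm_apply_apply]
          exact hg
        · intro g g' _ _ h
          exact e.injective h
        · intro i hi
          exact ⟨e.symm i, hi, e.apply_symm_apply i⟩
      have h4 : ((Fintype.card (Φ → ZMod M) : ℕ) : ℝ) = (M : ℝ) ^ Fintype.card Φ := by
        rw [Fintype.card_fun, ZMod.card]
        push_cast
        rfl
      rw [← h4]
      rw [h3]
      exact hA2.le))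
  have h3 := atom_lac c0 hLP r d hd hdQ (ι := ι) (θ := θ) (fun N hN => ι.injective (by
      rw [map_mul, map_sub, map_one, t1, map_natCast]
      have := hs N hN
      push_cast at this ⊢
      linear_combination (-1 / 4 : ℂ) * this))
    (fun N => by
      rw [map_sub, map_one, t1]
      simp only [map_div₀, map_add, map_one, map_mul, Complex.conj_I, Complex.conj_ofReal,
        map_ofNat]
      ring) μ (gd_ad h1) h2 fun i hi => h1.2.1 _ ⟨i, hi, by simp⟩
  have h4 : δ ≤ (μ : Measure (algebraicClosure ℚ ℂ → T)).real {0} := by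
    have := ENNReal.toReal_mono (measure_ne_top _ _) h1.1
    rwa [ENNReal.toReal_ofReal δ0.le] at this
  have h5 : δ * c ^ r ≤ 1 := le_trans (by gcongr) h3
  rw [hδ, add_mul, ← mul_pow, one_div, inv_mul_cancel₀ hcpos.ne', one_pow] at h5
  have h6 : 0 < ε * c ^ r := by positivity
  linarith

/-- commensurable positive reals are positive integer multiples of one of them -/
theorem common {k : ℕ} (h : Fin k → ℝ) (hpos : ∀ i, 0 < h i)
    (hcom : ∀ i j, ∃ q : ℚ, h i = q * h j) :
    ∃ t : ℝ, 0 < t ∧ ∃ d : ℕ → ℕ, (∀ i < k, 0 < d i) ∧ ∀ i : Fin k, h i = t * d i := by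
  rcases Nat.eq_zero_or_pos k with hk | hk
  · subst hk
    exact ⟨1, one_pos, fun _ => 1, fun _ _ => one_pos, fun i => i.elim0⟩
  · choose q hq using fun i => hcom i ⟨0, hk⟩
    have h0 := hpos ⟨0, hk⟩
    have q0 : ∀ i, 0 < q i := fun i => by
      have h1 := hpos i
      rw [hq i] at h1
      have := (mul_pos_iff_of_pos_right h0).1 h1
      exact_mod_cast this
    set N : ℕ := ∏ i, (q i).den with hN
    have N0 : 0 < N := Finset.prod_pos fun i _ => (q i).den_pos
    have N0' : (0 : ℝ) < N := by exact_mod_cast N0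
    have hi : ∀ i, ∃ e : ℕ, 0 < e ∧ q i * N = e := by
      intro i
      obtain ⟨e, he⟩ : (q i).den ∣ N := Finset.dvd_prod_of_mem _ (Finset.mem_univ i)
      have hqn : 0 < (q i).num := Rat.num_pos.2 (q0 i)
      have e0 : 0 < e := by
        rcases Nat.eq_zero_or_pos e with h' | h'
        · rw [h', mul_zero] at he; omega
        · exact h'
      refine ⟨(q i).num.toNat * e, Nat.mul_pos (by omega) e0, ?_⟩
      rw [he]
      push_cast
      have h1 : ((q i).num.toNat : ℚ) = (q i).num := by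
        have : (((q i).num.toNat : ℤ)) = (q i).num := Int.toNat_of_nonneg hqn.le
        exact_mod_cast this
      rw [h1, ← mul_assoc, Rat.mul_den_eq_num]
    choose e he0 he using hi
    refine ⟨h ⟨0, hk⟩ / N, by positivity, fun i => if hi : i < k then e ⟨i, hi⟩ else 1,
      fun i hi => ?_, fun i => ?_⟩
    · simp only [hi, dif_pos]
      exact he0 _
    · simp only [i.2, dif_pos, Fin.eta]
      rw [hq i]
      have h2 : ((q i : ℚ) : ℝ) * N = e i := by exact_mod_cast congrArg (fun x : ℚ => (x : ℝ)) (he i)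
      rw [← h2]
      field_simp

/-- the density theorem for lacunary commensurable distances -/
theorem plane_dens {c Q : ℝ} (c0 : 1 ≤ c) (hLP : LPI c Q) (k : ℕ) (h : Fin k → ℝ)
    (hpos : ∀ i, 0 < h i) (hcom : ∀ i j, ∃ q : ℚ, h i = q * h j)
    (hlac : ∀ i j, i < j → Q * h i ≤ h j) (ε : ℝ) (hε : 0 < ε) :
      ∃ (n : ℕ) (p : Fin n → EuclideanSpace ℝ (Fin 2)), 0 < n ∧
        ∀ A : Set (EuclideanSpace ℝ (Fin 2)),
          (∀ x ∈ A, ∀ y ∈ A, ∀ i, dist x y ≠ h i) →
          ({i | p i ∈ A}.ncard : ℝ) ≤ ((1 / c) ^ k + ε) * n := by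
  obtain ⟨t, t0, d, d0, hd⟩ := common h hpos hcom
  obtain ⟨n, p, n0, hp⟩ := plane_nat c0 hLP k d d0 (fun i hi => by
    have h1 := hlac ⟨i, by omega⟩ ⟨i + 1, hi⟩ (by rw [Fin.mk_lt_mk]; omega)
    rw [hd, hd] at h1
    simp only at h1
    have h2 : t * (Q * d i) ≤ t * d (i + 1) := by linarith
    exact le_of_mul_le_mul_left h2 t0) t t0 ε hε
  refine ⟨n, p, n0, fun A hA => hp A fun x hx y hy i hi => ?_⟩
  have h1 := hA x hx y hy ⟨i, hi⟩
  rwa [hd] at h1

/-- the colouring theorem for lacunary commensurable distances -/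
theorem plane_col {c Q : ℝ} (c0 : 1 ≤ c) (hLP : LPI c Q) (k : ℕ) (h : Fin k → ℝ)
    (hpos : ∀ i, 0 < h i) (hcom : ∀ i j, ∃ q : ℚ, h i = q * h j)
    (hlac : ∀ i j, i < j → Q * h i ≤ h j) (N : ℕ) (col : EuclideanSpace ℝ (Fin 2) → Fin N)
    (hcol : ∀ x y, ∀ i, dist x y = h i → col x ≠ col y) : c ^ k ≤ N := by
  classical
  have cpos : 0 < c := by linarith
  have key : ∀ ε : ℝ, 0 < ε → 1 ≤ N * ((1 / c) ^ k + ε) := by
    intro ε hε
    obtain ⟨n, p, n0, hp⟩ := plane_dens c0 hLP k h hpos hcom hlac ε hε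
    have n0' : (0 : ℝ) < n := by exact_mod_cast n0
    have h1 : (n : ℝ) = ∑ a : Fin N, ((Finset.univ.filter fun i => col (p i) = a).card : ℝ) := by
      have := Finset.card_eq_sum_card_fiberwise (f := fun i => col (p i)) (s := Finset.univ)
        (t := Finset.univ) fun i _ => Finset.mem_univ _
      rw [Finset.card_univ, Fintype.card_fin] at this
      exact_mod_cast this
    have h2 : (n : ℝ) ≤ ∑ _a : Fin N, ((1 / c) ^ k + ε) * n := by
      rw [h1]
      refine Finset.sum_le_sum fun a _ => ?_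
      rw [← h1]
      have h3 := hp {x | col x = a} fun x hx y hy i hd => hcol x y i hd (hx.trans hy.symm)
      refine le_trans (le_of_eq ?_) h3
      rw [← Set.ncard_coe_finset]
      congr 2
      ext i
      simp
    rw [Finset.sum_const, Finset.card_univ, Fintype.card_fin, nsmul_eq_mul, ← mul_assoc] at h2
    exact le_of_mul_le_mul_right (by linarith) n0'
  have h4 : (1 : ℝ) ≤ N * ((1 / c) ^ k + 0) := by
    have h5 : Tendsto (fun ε : ℝ => (N : ℝ) * ((1 / c) ^ k + ε)) (𝓝[>] 0)
        (𝓝 (N * ((1 / c) ^ k + 0))) :=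
      ((continuous_const.mul (continuous_const.add continuous_id)).tendsto 0).mono_left
        nhdsWithin_le_nhds
    refine ge_of_tendsto h5 ?_
    filter_upwards [self_mem_nhdsWithin] with ε hε
    exact key ε hε
  rw [add_zero, one_div, inv_pow] at h4
  have : 0 < c ^ k := by positivity
  rwa [← div_eq_mul_inv, le_div_iff₀ this, one_mul] at h4

end Pool.Agent.H73.PD
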