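import Mathlib
import Pool.Graph.R_seed8.Y357.PD.Growth
import Pool.Agent.H73.PD.Plane

/-!
# The growth constant is at least `1 - 1 / min J₀ > 3.48`
-/

open Filter Topology

namespace Pool.Agent.H73.PD

open Pool.Agent.Y357.PD

/-- colourings of `ℝ ^ d`, `d ≥ 2`, with a lacunary set of forbidden distances -/
theorem dim_col {c Q : ℝ} (c0 : 1 ≤ c) (hLP : LPI c Q) {e : ℕ} (he : 2 ≤ e) (k : ℕ)
    (h : Fin k → ℝ) (hpos : ∀ i, 0 < h i) (hcom : ∀ i j, ∃ q : ℚ, h i = q * h j)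
    (hlac : ∀ i j, i < j → Q * h i ≤ h j) (N : ℕ) (col : EuclideanSpace ℝ (Fin e) → Fin N)
    (hcol : ∀ x y, ∀ i, dist x y = h i → col x ≠ col y) : c ^ k ≤ N := by
  obtain ⟨m, rfl⟩ : ∃ m, e = m + 2 := ⟨e - 2, by omega⟩
  refine plane_col c0 hLP k h hpos hcom hlac N (fun x => col (incl m x)) fun x y i hd => ?_
  exact hcol _ _ i (by rw [dist_incl]; exact hd)

/-- the distances `1, M, M², …` -/
theorem pow_dist {c Q : ℝ} (c0 : 1 ≤ c) (hLP : LPI c Q) {M : ℕ} (hM2 : 2 ≤ M) (hM : Q ≤ M)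
    {e : ℕ} (he : 2 ≤ e) (k : ℕ) : ∃ H : Finset ℝ, H.card = k ∧ (∀ h ∈ H, 0 < h) ∧
      ∀ N, Good e H N → c ^ k ≤ N := by
  classical
  have M1 : (1 : ℝ) < M := by exact_mod_cast hM2
  have M0 : (0 : ℝ) < M := by linarith
  refine ⟨(Finset.range k).image fun i => (M : ℝ) ^ i, ?_, fun s hs => ?_, fun N ⟨col, hcol⟩ => ?_⟩
  · rw [Finset.card_image_of_injective _ (pow_right_injective₀ (by linarith) M1.ne'),
      Finset.card_range]
  · obtain ⟨i, -, rfl⟩ := Finset.mem_image.1 hs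
    positivity
  · refine dim_col c0 hLP he k (fun i => (M : ℝ) ^ (i : ℕ)) (fun i => by positivity)
      (fun i j => ⟨(M : ℚ) ^ (i : ℕ) / (M : ℚ) ^ (j : ℕ), ?_⟩) (fun i j hij => ?_) N col
      fun x y i hd => hcol x y (Finset.mem_image.2 ⟨i, Finset.mem_range.2 i.2, hd.symm⟩)
    · push_cast
      field_simp
    · have h1 : (i : ℕ) + 1 ≤ j := hij
      calc Q * (M : ℝ) ^ (i : ℕ) ≤ M * (M : ℝ) ^ (i : ℕ) := by gcongr
        _ = (M : ℝ) ^ ((i : ℕ) + 1) := by ring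
        _ ≤ (M : ℝ) ^ (j : ℕ) := pow_le_pow_right₀ M1.le h1

theorem pow_le_f {m : ℝ} (hm : 0 < m) (hJ : ∀ x : ℝ, 0 ≤ x → -(2 * Real.pi * m) ≤ bA x)
    {e C : ℕ} (he : 2 ≤ e) (hC : ∀ h : ℝ, 0 < h → Good e {h} C) (k : ℕ) :
    (1 + 1 / m) ^ k ≤ (f e k : ℝ) := by
  have h1 : ∀ c : ℝ, 1 ≤ c → c < 1 + 1 / m → c ^ k ≤ (f e k : ℝ) := by
    intro c c1 c2
    have c3 : (c - 1) * m < 1 := by
      have : c - 1 < 1 / m := by linarith
      rwa [lt_div_iff₀ hm] at this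
    obtain ⟨Q, -, hQ⟩ := exists_LPI hm.le hJ c1 c3
    obtain ⟨M, hM⟩ := exists_nat_ge (max 2 Q)
    have M2 : (2 : ℝ) ≤ M := (le_max_left _ _).trans hM
    obtain ⟨H, a1, a2, a3⟩ := pow_dist c1 hQ (M := M) (by exact_mod_cast M2)
      ((le_max_right _ _).trans hM) he k
    obtain ⟨n, hn, -⟩ := exists_least hC H a2
    exact (a3 n hn.1).trans (by exact_mod_cast (f_greatest hC k).1.2 ⟨H, a1, a2, hn⟩)
  have hB : 1 < 1 + 1 / m := by
    have : 0 < 1 / m := by positivity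
    linarith
  have t0 : Tendsto (fun b : ℝ => b ^ k) (𝓝[<] (1 + 1 / m)) (𝓝 ((1 + 1 / m) ^ k)) :=
    ((continuous_pow k).tendsto _).mono_left nhdsWithin_le_nhds
  refine le_of_tendsto t0 ?_
  filter_upwards [Ioo_mem_nhdsLT hB] with c hc
  exact h1 c hc.1.le hc.2

theorem growth_ge {m : ℝ} (hm : 0 < m) (hJ : ∀ x : ℝ, 0 ≤ x → -(2 * Real.pi * m) ≤ bA x)
    {e C : ℕ} (he : 2 ≤ e) (hC : ∀ h : ℝ, 0 < h → Good e {h} C) :
    ∃ L : ℝ, 1 + 1 / m ≤ L ∧ L ≤ f e 1 ∧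
      Tendsto (fun k : ℕ => (f e k : ℝ) ^ (1 / (k : ℝ))) atTop (𝓝 L) ∧
      ∀ k, L ^ k ≤ f e k := by
  obtain ⟨L, -, h2, h3, h4⟩ := growth he hC
  refine ⟨L, ?_, h2, h3, h4⟩
  refine ge_of_tendsto h3 ?_
  filter_upwards [eventually_ne_atTop 0] with k hk
  have h5 := pow_le_f hm hJ he hC k
  have h6 : (0 : ℝ) ≤ 1 + 1 / m := by positivity
  have hk0 : (k : ℝ) ≠ 0 := by exact_mod_cast hk
  calc 1 + 1 / m = ((1 + 1 / m) ^ k) ^ (1 / (k : ℝ)) := by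
        rw [← Real.rpow_natCast, ← Real.rpow_mul h6, mul_one_div_cancel hk0, Real.rpow_one]
    _ ≤ (f e k : ℝ) ^ (1 / (k : ℝ)) := Real.rpow_le_rpow (by positivity) h5 (by positivity)

end Pool.Agent.H73.PD
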